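import Pool.Agent.H606.GU.Stm

/-! TASK AMP of project GU (helper606): tensor power trick. -/

open MeasureTheory Filter Topology Finset
open Pool.Agent.H606.GU

namespace Pool.Agent.H354.GU.AMP

/-! ### elementary lemmas -/

lemma prod_le_sum_pow {j : ℕ} (hj : 1 ≤ j) (a : Fin j → ℝ) (ha : ∀ l, 0 ≤ a l) :
    ∏ l, a l ≤ ∑ l, a l ^ j := by
  have : Nonempty (Fin j) := ⟨⟨0, hj⟩⟩
  obtain ⟨l0, hl0⟩ := Finite.exists_max a
  calc ∏ l, a l ≤ ∏ _l : Fin j, a l0 :=
        Finset.prod_le_prod (fun l _ => ha l) (fun l _ => hl0 l)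
    _ = a l0 ^ j := by simp
    _ ≤ ∑ l, a l ^ j := Finset.single_le_sum (f := fun l => a l ^ j)
        (fun l _ => pow_nonneg (ha l) j) (Finset.mem_univ l0)

lemma card_noninj (j M : ℕ) (hM : 1 ≤ M) :
    ((Finset.univ.filter fun p : Fin j → Fin M => ¬ Function.Injective p).card : ℝ) * M ≤
      (j : ℝ) ^ 2 * (M : ℝ) ^ j := by
  classical
  have h1 : (Finset.univ.filter fun p : Fin j → Fin M => Function.Injective p).card +
      (Finset.univ.filter fun p : Fin j → Fin M => ¬ Function.Injective p).card = M ^ j := by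
    rw [Finset.card_filter_add_card_filter_not]
    simp
  have h2 : (Finset.univ.filter fun p : Fin j → Fin M => Function.Injective p).card =
      M.descFactorial j := by
    rw [← Fintype.card_subtype, Fintype.card_congr (Equiv.subtypeInjectiveEquivEmbedding _ _),
      Fintype.card_embedding_eq]
    simp
  have hM0 : (0 : ℝ) < M := by exact_mod_cast hM
  set n := (Finset.univ.filter fun p : Fin j → Fin M => ¬ Function.Injective p).card with hn
  have h3 : (n : ℝ) = (M : ℝ) ^ j - (M.descFactorial j : ℝ) := by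
    have : ((M.descFactorial j + n : ℕ) : ℝ) = ((M ^ j : ℕ) : ℝ) := by rw [← h1, h2]
    push_cast at this
    linarith
  rcases le_or_gt j M with hjM | hjM
  · have h4 : ((M : ℝ) - j) ^ j ≤ (M.descFactorial j : ℝ) := by
      have h5 := Nat.pow_sub_le_descFactorial M j
      have h6 : ((M : ℝ) - j) ^ j ≤ (((M + 1 - j : ℕ) : ℝ)) ^ j := by
        apply pow_le_pow_left₀
        · rw [sub_nonneg]; exact_mod_cast hjM
        · rw [Nat.cast_sub (by omega)]
          push_cast
          linarith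
      refine h6.trans ?_
      exact_mod_cast h5
    have h5 : (M : ℝ) ^ j * (1 - (j : ℝ) ^ 2 / M) ≤ ((M : ℝ) - j) ^ j := by
      have h7 : ((M : ℝ) - j) = M * (1 + -(j / M : ℝ)) := by
        field_simp
        ring
      rw [h7, mul_pow]
      apply mul_le_mul_of_nonneg_left _ (pow_nonneg hM0.le _)
      have h8 := one_add_mul_le_pow (a := -(j / M : ℝ)) (by
        have : (j : ℝ) / M ≤ 1 := by
          rw [div_le_one hM0]; exact_mod_cast hjM
        linarith) j
      refine le_trans (le_of_eq ?_) h8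
      ring
    have h6 : (n : ℝ) ≤ (M : ℝ) ^ j * ((j : ℝ) ^ 2 / M) := by
      rw [h3]
      nlinarith
    calc (n : ℝ) * M ≤ (M : ℝ) ^ j * ((j : ℝ) ^ 2 / M) * M :=
          mul_le_mul_of_nonneg_right h6 hM0.le
      _ = (j : ℝ) ^ 2 * (M : ℝ) ^ j := by
          field_simp
  · have h4 : (n : ℝ) ≤ (M : ℝ) ^ j := by
      rw [h3]
      have : (0 : ℝ) ≤ (M.descFactorial j : ℝ) := by positivity
      linarith
    have h5 : (M : ℝ) ≤ (j : ℝ) ^ 2 := by
      have : M ≤ j ^ 2 := by nlinarith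
      exact_mod_cast this
    calc (n : ℝ) * M ≤ (M : ℝ) ^ j * (j : ℝ) ^ 2 :=
          mul_le_mul h4 h5 hM0.le (by positivity)
      _ = _ := by ring

lemma cnt_mono {α : Type} [Finite α] {N : ℕ} (x : Fin N → ℝ) {A B : Set (α → ℝ)} (h : A ⊆ B)
    (t : ℝ) : cnt x A t ≤ cnt x B t :=
  Set.ncard_le_ncard (fun _ hs => ⟨hs.1, h hs.2⟩) (Set.toFinite _)

/-! ### one configuration -/

section one

variable (hAV : S_AV) (hTC : S_TC) (hBLK : S_BLK)
  {N : ℕ} (x : Fin N → ℝ) (R : ℝ) (hR : 0 < R) (hx : ∀ i, 0 ≤ x i ∧ x i ≤ R)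
  (k j M : ℕ) (hk : 1 ≤ k) (hj : 1 ≤ j) (hM : 1 ≤ M) (D : ℝ) (hD : 0 < D)
  (K : Set (Fin k → ℝ)) (hK : IsCompact K) (hKD : K ⊆ tile k D 0)

include hTC hD hx in
lemma tc_int (p : ℕ) (hp : 1 ≤ p) : Integrable (fun t => (tc x D 0 t : ℝ) ^ p) := by
  obtain ⟨-, -, -, -, h5, h6, h7, -, -⟩ := hTC N x D hD
  have hI : Integrable (fun t : ℝ =>
      (Set.Icc (-(((1 : ℕ) : ℝ) * D)) R).indicator (fun _ => (N : ℝ) ^ p) t) := by
    rw [integrable_indicator_iff measurableSet_Icc]
    exact integrableOn_const (by simp) (by simp)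
  refine hI.mono' ((h5 0).pow_const p).aestronglyMeasurable (Eventually.of_forall fun t => ?_)
  rw [Real.norm_of_nonneg (by positivity)]
  by_cases ht : t ∈ Set.Icc (-(((1 : ℕ) : ℝ) * D)) R
  · rw [Set.indicator_of_mem ht]
    exact pow_le_pow_left₀ (by positivity) (by exact_mod_cast h7 0 t) p
  · rw [Set.indicator_of_notMem ht, h6 1 R hx 0 (by norm_num) t ht]
    simp [show p ≠ 0 by omega]

include hTC hD hKD in
lemma f_le (t : ℝ) : (cnt x K t : ℝ) ≤ (tc x D 0 t : ℝ) ^ k := by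
  obtain ⟨h1, -, -, -, -, -, -, -, -⟩ := hTC N x D hD
  have h2 := cnt_mono x hKD t
  rw [← h1 k 0 t] at h2
  have h3 := h2.trans (Nat.descFactorial_le_pow (tc x D 0 t) k)
  exact_mod_cast h3

include hAV hTC hD hKD hx hR hK hk hj in
lemma fj_int : Integrable (fun t => (cnt x K t : ℝ) ^ j) := by
  have : Nonempty (Fin k) := ⟨⟨0, hk⟩⟩
  have h1 := (hAV (Fin k) N x R hR).1 K hK.measurableSet hK.isBounded
  refine (tc_int hTC x R hx D hD (k * j) (by nlinarith)).mono' (h1.aestronglyMeasurable.pow j)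
    (Eventually.of_forall fun t => ?_)
  rw [Real.norm_of_nonneg (by positivity), pow_mul]
  exact pow_le_pow_left₀ (by positivity) (f_le hTC x k D hD K hKD t) j

include hAV hTC hD hKD hx hR hK hk hj in
lemma G_int (p : Fin j → ℝ) : Integrable (fun t => ∏ l, (cnt x K (t + p l) : ℝ)) := by
  have : Nonempty (Fin k) := ⟨⟨0, hk⟩⟩
  have h1 := (hAV (Fin k) N x R hR).1 K hK.measurableSet hK.isBounded
  have h2 : Integrable (fun t => ∑ l, (cnt x K (t + p l) : ℝ) ^ j) := by
    apply integrable_finsetSum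
    intro l _
    exact (fj_int hAV hTC x R hR hx k j hk hj D hD K hK hKD).comp_add_right (p l)
  refine h2.mono' ?_ (Eventually.of_forall fun t => ?_)
  · apply Finset.aestronglyMeasurable_fun_prod
    intro l _
    exact (h1.comp_add_right (p l)).aestronglyMeasurable
  · rw [Real.norm_of_nonneg (by positivity)]
    exact prod_le_sum_pow hj _ (fun l => by positivity)

include hAV hTC hD hKD hx hR hK hk hj in
lemma G_le (p : Fin j → ℝ) (e : ℝ) (he : (∫ t : ℝ, (tc x D 0 t : ℝ) ^ (j * k)) / R ≤ e) :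
    ∫ t, ∏ l, (cnt x K (t + p l) : ℝ) ≤ R * (j * e) := by
  have h2 : Integrable (fun t => ∑ l, (cnt x K (t + p l) : ℝ) ^ j) := by
    apply integrable_finsetSum
    intro l _
    exact (fj_int hAV hTC x R hR hx k j hk hj D hD K hK hKD).comp_add_right (p l)
  have h3 : ∫ t, ∏ l, (cnt x K (t + p l) : ℝ) ≤ ∫ t, ∑ l, (cnt x K (t + p l) : ℝ) ^ j :=
    integral_mono (G_int hAV hTC x R hR hx k j hk hj D hD K hK hKD p) h2
      (fun t => prod_le_sum_pow hj _ (fun l => by positivity))
  refine h3.trans ?_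
  rw [integral_finsetSum _ (fun l _ =>
    (fj_int hAV hTC x R hR hx k j hk hj D hD K hK hKD).comp_add_right (p l))]
  have h4 : ∀ l ∈ (Finset.univ : Finset (Fin j)), ∫ t, (cnt x K (t + p l) : ℝ) ^ j ≤ R * e := by
    intro l _
    rw [integral_add_right_eq_self (fun t => (cnt x K t : ℝ) ^ j) (p l)]
    have h5 : ∫ t, (cnt x K t : ℝ) ^ j ≤ ∫ t, (tc x D 0 t : ℝ) ^ (j * k) := by
      refine integral_mono (fj_int hAV hTC x R hR hx k j hk hj D hD K hK hKD)
        (tc_int hTC x R hx D hD (j * k) (by nlinarith)) (fun t => ?_)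
      show (cnt x K t : ℝ) ^ j ≤ (tc x D 0 t : ℝ) ^ (j * k)
      rw [mul_comm j k, pow_mul]
      exact pow_le_pow_left₀ (by positivity) (f_le hTC x k D hD K hKD t) j
    refine h5.trans ?_
    rw [div_le_iff₀ hR] at he
    linarith
  refine (Finset.sum_le_sum h4).trans (le_of_eq ?_)
  simp
  ring

include hAV hTC hBLK hD hKD hx hR hK hk hj hM in
lemma core_det (b e : ℝ) (hb0 : 0 ≤ b)
    (hb : ∀ p : Fin j → Fin M, Function.Injective p →
      Av x R (blk K D (fun l => ((p l : Fin M) : ℕ))) ≤ b)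
    (he : (∫ t : ℝ, (tc x D 0 t : ℝ) ^ (j * k)) / R ≤ e) :
    (M * R * Av x R K / (R + M * D)) ^ j ≤ R / (R + M * D) * ((M : ℝ) ^ j * b +
      ((Finset.univ.filter fun p : Fin j → Fin M => ¬ Function.Injective p).card : ℝ) *
        (j * e)) := by
  classical
  have : Nonempty (Fin k) := ⟨⟨0, hk⟩⟩
  have hM0 : (0 : ℝ) < M := by exact_mod_cast hM
  have hI0 : 0 < R + M * D := by positivity
  have hf := (hAV (Fin k) N x R hR).1 K hK.measurableSet hK.isBounded
  set f : ℝ → ℝ := fun t => (cnt x K t : ℝ) with hfd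
  set F : ℝ → ℝ := fun t => ∑ i : Fin M, f (t + ((i : ℕ) : ℝ) * D) with hFd
  set nI := ((Finset.univ.filter fun p : Fin j → Fin M => ¬ Function.Injective p).card : ℝ)
    with hnI
  have hFint : Integrable F := integrable_finsetSum _ fun i _ => hf.comp_add_right _
  have hF0 : ∀ t, 0 ≤ F t := fun t => Finset.sum_nonneg fun i _ => by positivity
  -- power
  have hpow : ∀ t, F t ^ j = ∑ p : Fin j → Fin M, ∏ l, f (t + (((p l : Fin M) : ℕ) : ℝ) * D) := by
    intro t
    simp only [hFd]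
    rw [Fintype.sum_pow]
  have hGint : ∀ p : Fin j → Fin M, Integrable (fun t =>
      ∏ l, f (t + (((p l : Fin M) : ℕ) : ℝ) * D)) := fun p =>
    G_int hAV hTC x R hR hx k j hk hj D hD K hK hKD _
  have hFjint : Integrable (fun t => F t ^ j) := by
    simp only [hpow]
    exact integrable_finsetSum _ fun p _ => hGint p
  have hFj : ∫ t, F t ^ j ≤ R * ((M : ℝ) ^ j * b + nI * (j * e)) := by
    simp only [hpow]
    rw [integral_finsetSum _ (fun p _ => hGint p)]
    rw [← Finset.sum_filter_add_sum_filter_not Finset.univ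
      (fun p : Fin j → Fin M => Function.Injective p)]
    have h1 : ∑ p ∈ Finset.univ.filter (fun p : Fin j → Fin M => Function.Injective p),
        ∫ t, ∏ l, f (t + (((p l : Fin M) : ℕ) : ℝ) * D) ≤ (M : ℝ) ^ j * (R * b) := by
      have h2 : ∀ p ∈ Finset.univ.filter (fun p : Fin j → Fin M => Function.Injective p),
          ∫ t, ∏ l, f (t + (((p l : Fin M) : ℕ) : ℝ) * D) ≤ R * b := by
        intro p hp
        have hp' : Function.Injective p := (Finset.mem_filter.1 hp).2
        have hinj : Function.Injective (fun l => ((p l : Fin M) : ℕ)) :=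
          Fin.val_injective.comp hp'
        have h3 := (hBLK j k D K hD hk hK hKD (fun l => ((p l : Fin M) : ℕ)) hinj).1 N x
        have h4 : ∀ t, ∏ l, f (t + (((p l : Fin M) : ℕ) : ℝ) * D) =
            (cnt x (blk K D (fun l => ((p l : Fin M) : ℕ))) t : ℝ) := by
          intro t
          rw [← h3 t]
          simp only [hfd]
          push_cast
          rfl
        simp only [h4]
        have h5 := hb p hp'
        unfold Av at h5
        rw [div_le_iff₀ hR] at h5
        linarith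
      refine (Finset.sum_le_sum h2).trans ?_
      rw [Finset.sum_const, nsmul_eq_mul]
      apply mul_le_mul_of_nonneg_right _ (by positivity)
      have h3 : (Finset.univ.filter (fun p : Fin j → Fin M => Function.Injective p)).card ≤
          M ^ j := by
        refine (Finset.card_le_univ _).trans (le_of_eq ?_)
        simp
      exact_mod_cast h3
    have h2 : ∑ p ∈ Finset.univ.filter (fun p : Fin j → Fin M => ¬ Function.Injective p),
        ∫ t, ∏ l, f (t + (((p l : Fin M) : ℕ) : ℝ) * D) ≤ nI * (R * (j * e)) := by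
      have h3 : ∀ p ∈ Finset.univ.filter (fun p : Fin j → Fin M => ¬ Function.Injective p),
          ∫ t, ∏ l, f (t + (((p l : Fin M) : ℕ) : ℝ) * D) ≤ R * (j * e) := by
        intro p _
        exact G_le hAV hTC x R hR hx k j hk hj D hD K hK hKD _ e he
      refine (Finset.sum_le_sum h3).trans (le_of_eq ?_)
      rw [Finset.sum_const, nsmul_eq_mul]
    linarith
  -- support
  have hsupp : ∀ t, t ∉ Set.Icc (-((M : ℝ) * D)) R → F t = 0 := by
    intro t ht
    apply Finset.sum_eq_zero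
    intro i _
    obtain ⟨-, -, -, h4, -, h6, -, -, -⟩ := hTC N x D hD
    have h7 := h6 M R hx i i.2 t ht
    rw [h4 i t] at h7
    have h8 := f_le hTC x k D hD K hKD (t + ((i : ℕ) : ℝ) * D)
    rw [h7] at h8
    have h9 : (0 : ℝ) ≤ f (t + ((i : ℕ) : ℝ) * D) := by positivity
    have h10 : (((0 : ℕ) : ℝ)) ^ k = 0 := by
      simp [show k ≠ 0 by omega]
    rw [h10] at h8
    exact le_antisymm h8 h9
  have hFI : ∫ t, F t = M * R * Av x R K := by
    simp only [hFd]
    rw [integral_finsetSum _ (fun i _ => hf.comp_add_right _)]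
    have h1 : ∀ i ∈ (Finset.univ : Finset (Fin M)),
        ∫ t, f (t + ((i : ℕ) : ℝ) * D) = R * Av x R K := by
      intro i _
      rw [integral_add_right_eq_self f]
      unfold Av
      rw [mul_div_cancel₀ _ hR.ne']
    rw [Finset.sum_congr rfl h1]
    simp
    ring
  have hFI' : ∫ t in Set.Icc (-((M : ℝ) * D)) R, F t = M * R * Av x R K := by
    rw [← hFI]
    apply setIntegral_eq_integral_of_forall_compl_eq_zero
    exact fun t ht => hsupp t ht
  have hFjI' : ∫ t in Set.Icc (-((M : ℝ) * D)) R, F t ^ j ≤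
      R * ((M : ℝ) ^ j * b + nI * (j * e)) :=
    (setIntegral_le_integral hFjint (Eventually.of_forall fun t => pow_nonneg (hF0 t) j)).trans hFj
  -- Jensen
  have hvol : volume.real (Set.Icc (-((M : ℝ) * D)) R) = R + M * D := by
    rw [Real.volume_real_Icc_of_le (by nlinarith [mul_pos hM0 hD])]
    ring
  have hJ := (convexOn_pow (𝕜 := ℝ) j).set_average_mem_epigraph
    (t := Set.Icc (-((M : ℝ) * D)) R) (μ := (volume : Measure ℝ)) (f := F)
    (by fun_prop) isClosed_Ici
    (by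
      rw [Real.volume_Icc]
      simp only [ne_eq, ENNReal.ofReal_eq_zero, not_le]
      nlinarith)
    (by simp)
    (Eventually.of_forall fun t => hF0 t) hFint.integrableOn
    (hFjint.integrableOn)
  have hJ2 : (⨍ t in Set.Icc (-((M : ℝ) * D)) R, F t) ^ j ≤
      ⨍ t in Set.Icc (-((M : ℝ) * D)) R, F t ^ j := hJ.2
  rw [setAverage_eq, setAverage_eq, hvol, hFI', smul_eq_mul, smul_eq_mul] at hJ2
  calc (M * R * Av x R K / (R + M * D)) ^ j = ((R + M * D)⁻¹ * (M * R * Av x R K)) ^ j := by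
        rw [div_eq_inv_mul]
    _ ≤ (R + M * D)⁻¹ * ∫ t in Set.Icc (-((M : ℝ) * D)) R, F t ^ j := hJ2
    _ ≤ (R + M * D)⁻¹ * (R * ((M : ℝ) ^ j * b + nI * (j * e))) :=
        mul_le_mul_of_nonneg_left hFjI' (by positivity)
    _ = _ := by
        rw [div_eq_inv_mul]; ring

end one

/-! ### asymptotics -/

lemma core (hAV : S_AV) (hTC : S_TC) (hBLK : S_BLK) (hMOM : S_MOM) (hAVE : S_AVE) (hFIS : S_FIS)
    (C : Cfg) (k j : ℕ) (hk : 1 ≤ k) (hj : 1 ≤ j) (D : ℝ) (hD : 0 < D) (K : Set (Fin k → ℝ))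
    (hK : IsCompact K) (hKD : K ⊆ tile k D 0) (c : ℝ) (hc : 0 ≤ c)
    (hUp : Up C (Fin j × Fin k) c) (ε : ℝ) (hε : 0 < ε) :
    ∀ᶠ T in atTop, (Av (C.x T) (C.R T) K) ^ j ≤ c * (∫ y in K, rho y) ^ j + ε := by
  have hUp' : Up C (Fin (j * k)) c :=
    (hAVE (Fin j × Fin k) (Fin (j * k)) finProdFinEquiv).2 C c hUp
  obtain ⟨e, he0, he⟩ := hMOM C (j * k) c (by nlinarith) hc hUp' (j * k) (by nlinarith) le_rfl D hD
  obtain ⟨M0, hM0⟩ := exists_nat_ge (4 * ((j : ℝ) ^ 2 * (j * e)) / ε)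
  set M := M0 + 1 with hMd
  have hM : 1 ≤ M := by omega
  have hMpos : (0 : ℝ) < M := by exact_mod_cast hM
  have hm0 : 0 ≤ ∫ y in K, rho y := integral_nonneg fun y => ((hFIS.1 (Fin k) y).2).1
  have hMe : (j : ℝ) ^ 2 * (j * e) / M ≤ ε / 4 := by
    rw [div_le_iff₀ hMpos]
    rw [div_le_iff₀ hε] at hM0
    have : (M0 : ℝ) ≤ M := by rw [hMd]; push_cast; linarith
    nlinarith
  set b := c * (∫ y in K, rho y) ^ j + ε / 4 with hb
  have hb0 : 0 ≤ b := by positivity
  have h1 : ∀ᶠ T in atTop, ∀ p : Fin j → Fin M, Function.Injective p →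
      Av (C.x T) (C.R T) (blk K D (fun l => ((p l : Fin M) : ℕ))) ≤ b := by
    rw [eventually_all]
    intro p
    by_cases hp : Function.Injective p
    · have hinj : Function.Injective (fun l => ((p l : Fin M) : ℕ)) := Fin.val_injective.comp hp
      obtain ⟨-, h3, h4⟩ := hBLK j k D K hD hk hK hKD (fun l => ((p l : Fin M) : ℕ)) hinj
      filter_upwards [hUp _ h3 (ε / 4) (by positivity)] with T hT _
      refine hT.trans ?_
      rw [hb]
      gcongr
    · exact Eventually.of_forall fun T h => absurd h hp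
  have hr : Tendsto (fun T => C.R T / (C.R T + M * D)) atTop (𝓝 1) := by
    have h2 : Tendsto (fun T => 1 - (M * D) / (C.R T + M * D)) atTop (𝓝 (1 - 0)) :=
      tendsto_const_nhds.sub (tendsto_const_nhds.div_atTop
        (tendsto_atTop_add_const_right _ _ C.hR))
    rw [sub_zero] at h2
    refine h2.congr' ?_
    filter_upwards [C.hR.eventually_gt_atTop 0] with T hT
    have : C.R T + M * D ≠ 0 := by positivity
    field_simp
    ring
  set E := b + (j : ℝ) ^ 2 * (j * e) / M with hE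
  have hlim : Tendsto (fun T => E / (C.R T / (C.R T + M * D)) ^ (j - 1)) atTop (𝓝 E) := by
    have h3 := (tendsto_const_nhds (x := E) (f := (atTop : Filter ℝ))).div (hr.pow (j - 1))
      (by simp)
    rw [one_pow, div_one] at h3
    exact h3
  have hEε : E < E + ε / 4 := by linarith
  filter_upwards [h1, he, hlim.eventually_lt_const hEε, C.hR.eventually_gt_atTop 0]
    with T hT1 hT2 hT3 hT4
  have hdet := core_det hAV hTC hBLK (C.x T) (C.R T) hT4 (C.hx T) k j M hk hj hM D hD K hK hKD b e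
    hb0 hT1 hT2
  have hnon := card_noninj j M hM
  set n := ((Finset.univ.filter fun p : Fin j → Fin M => ¬ Function.Injective p).card : ℝ)
    with hn
  set r := C.R T / (C.R T + M * D) with hrd
  have hr0 : 0 < r := by positivity
  have h5 : (M * C.R T * Av (C.x T) (C.R T) K / (C.R T + M * D)) ^ j =
      (M : ℝ) ^ j * (r * r ^ (j - 1)) * (Av (C.x T) (C.R T) K) ^ j := by
    rw [← pow_succ', show j - 1 + 1 = j by omega, ← mul_pow, ← mul_pow, hrd]
    congr 1
    ring
  rw [h5] at hdet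
  have h6 : (M : ℝ) ^ j * b + n * (j * e) ≤ (M : ℝ) ^ j * E := by
    have h7 : n ≤ (j : ℝ) ^ 2 * (M : ℝ) ^ j / M := by
      rw [le_div_iff₀ hMpos]; exact hnon
    have h8 : n * (j * e) ≤ (j : ℝ) ^ 2 * (M : ℝ) ^ j / M * (j * e) := by gcongr
    rw [hE]
    calc (M : ℝ) ^ j * b + n * (j * e) ≤
        (M : ℝ) ^ j * b + (j : ℝ) ^ 2 * (M : ℝ) ^ j / M * (j * e) := by linarith
      _ = _ := by ring
  have h7 : (M : ℝ) ^ j * (r * r ^ (j - 1)) * (Av (C.x T) (C.R T) K) ^ j ≤
      r * ((M : ℝ) ^ j * E) := hdet.trans (mul_le_mul_of_nonneg_left h6 hr0.le)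
  have h8 : (r ^ (j - 1)) * (Av (C.x T) (C.R T) K) ^ j ≤ E := by
    have h9 : 0 < r * (M : ℝ) ^ j := by positivity
    have h10 : (r * (M : ℝ) ^ j) * ((r ^ (j - 1)) * (Av (C.x T) (C.R T) K) ^ j) ≤
        (r * (M : ℝ) ^ j) * E := by
      calc (r * (M : ℝ) ^ j) * ((r ^ (j - 1)) * (Av (C.x T) (C.R T) K) ^ j) =
          (M : ℝ) ^ j * (r * r ^ (j - 1)) * (Av (C.x T) (C.R T) K) ^ j := by ring
        _ ≤ r * ((M : ℝ) ^ j * E) := h7
        _ = _ := by ring
    exact le_of_mul_le_mul_left h10 h9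
  have h9 : (Av (C.x T) (C.R T) K) ^ j ≤ E / r ^ (j - 1) := by
    rw [le_div_iff₀ (by positivity)]
    linarith
  calc (Av (C.x T) (C.R T) K) ^ j ≤ E / r ^ (j - 1) := h9
    _ ≤ E + ε / 4 := hT3.le
    _ ≤ _ := by
      rw [hE, hb]
      linarith

/-- translation of the integral of rho -/
lemma trans_int (hRHO : S_RHO) (k : ℕ) (K : Set (Fin k → ℝ)) (τ : ℝ) :
    ∫ y in {y : Fin k → ℝ | (fun i => y i - τ) ∈ K}, rho y = ∫ y in K, rho y := by
  have h1 := (measurePreserving_sub_right (volume : Measure (Fin k → ℝ))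
    (fun _ => τ)).setIntegral_preimage_emb (MeasurableEquiv.subRight (fun _ => τ)).measurableEmbedding
    (fun y => rho y) K
  rw [← h1]
  have h2 : (fun x : Fin k → ℝ => x - fun _ => τ) ⁻¹' K =
      {y : Fin k → ℝ | (fun i => y i - τ) ∈ K} := rfl
  rw [h2]
  apply integral_congr_ae
  exact Eventually.of_forall fun y => (hRHO.2.2.1 (Fin k) y τ).symm

theorem t_AMP (hAV : S_AV) (hTC : S_TC) (_hINT : S_INT) (_hUPC : S_UPC) (_hSETS : S_SETS)
    (hMOM : S_MOM) (hRHO : S_RHO) (hFIS : S_FIS) (hBLK : S_BLK) (hAVE : S_AVE) : S_AMP := by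
  intro C k hk hyp K hK ε hε
  have : Nonempty (Fin k) := ⟨⟨0, hk⟩⟩
  obtain ⟨B0, hB0⟩ := hK.isBounded.exists_norm_le
  set B := max B0 0 with hBd
  have hB : ∀ y ∈ K, ∀ i, |y i| ≤ B := fun y hy i =>
    ((norm_le_pi_norm y i).trans (hB0 y hy)).trans (le_max_left _ _)
  have hBnn : 0 ≤ B := le_max_right _ _
  set D := 2 * B + 1 with hDd
  have hD : 0 < D := by positivity
  set K' := {y : Fin k → ℝ | (fun i => y i - B) ∈ K} with hK'd
  have hK' : IsCompact K' := by
    have : K' = (Homeomorph.subRight (fun _ : Fin k => B)) ⁻¹' K := rfl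
    rw [this]
    exact (Homeomorph.subRight (fun _ : Fin k => B)).isCompact_preimage.2 hK
  have hK'D : K' ⊆ tile k D 0 := by
    intro y hy l
    have h1 := hB _ hy l
    rw [abs_le] at h1
    simp only [CharP.cast_eq_zero, zero_mul, zero_add, one_mul]
    constructor
    · linarith [h1.1]
    · rw [hDd]; linarith [h1.2]
  have hint : ∫ y in K', rho y = ∫ y in K, rho y := trans_int hRHO k K B
  set m := ∫ y in K, rho y with hm
  have hm0 : 0 ≤ m := integral_nonneg fun y => ((hFIS.1 (Fin k) y).2).1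
  set δ := ε / (2 * (m + 1)) with hδ
  have hδ0 : 0 < δ := by positivity
  obtain ⟨j, hj, c, hc0, hc, hUp⟩ := hyp δ hδ0
  have hev := core hAV hTC hBLK hMOM hAVE hFIS C k j hk hj D hD K' hK' hK'D c hc0 hUp
    ((ε / 2) ^ j) (by positivity)
  filter_upwards [hev, C.hR.eventually_gt_atTop 0] with T hT hTR
  have hAvK : Av (C.x T) (C.R T) K' = Av (C.x T) (C.R T) K :=
    (hAV (Fin k) (C.N T) (C.x T) (C.R T) hTR).2.1 K B
  rw [hAvK, hint] at hT
  by_contra hcon
  push Not at hcon
  rw [one_mul] at hcon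
  have h1 : δ * m ≤ ε / 2 := by
    rw [hδ, div_mul_eq_mul_div, div_le_iff₀ (by positivity)]
    nlinarith
  have h2 : (1 + δ) * m + ε / 2 < Av (C.x T) (C.R T) K := by nlinarith
  have h3 : ((1 + δ) * m) ^ j + (ε / 2) ^ j ≤ ((1 + δ) * m + ε / 2) ^ j :=
    pow_add_pow_le (by positivity) (by positivity) (by omega)
  have h4 : ((1 + δ) * m + ε / 2) ^ j < (Av (C.x T) (C.R T) K) ^ j :=
    pow_lt_pow_left₀ h2 (by positivity) (by omega)
  have h5 : c * m ^ j ≤ ((1 + δ) * m) ^ j := by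
    rw [mul_pow]
    gcongr
  linarith

end Pool.Agent.H354.GU.AMP
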