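import Pool.Agent.H606.GU.Stm

/-! TASK BX of project GU (helper606): from boxes of differences to compact sets. -/

open MeasureTheory Filter Topology Finset
open Pool.Agent.H606.GU

namespace Pool.Agent.H354.GU.BX

/-! ### the shear -/

lemma sn_last {d : ℕ} (u : Fin d → ℝ) (v : ℝ) : sn u v (Fin.last d) = v := by
  simp [sn]

lemma sn_castSucc {d : ℕ} (u : Fin d → ℝ) (v : ℝ) (i : Fin d) : sn u v i.castSucc = u i := by
  simp [sn]

/-- the shear `y ↦ (y_last, (y_i - y_last)_i)` -/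
noncomputable def th (d : ℕ) : (Fin (d + 1) → ℝ) ≃ₜ ℝ × (Fin d → ℝ) where
  toFun y := (y (Fin.last d), fun i => y i.castSucc - y (Fin.last d))
  invFun w := sn (fun i => w.2 i + w.1) w.1
  left_inv y := by
    funext i
    refine Fin.lastCases ?_ (fun i => ?_) i
    · simp [sn_last]
    · simp [sn_castSucc]
  right_inv w := by
    ext i
    · simp [sn_last]
    · simp [sn_last, sn_castSucc]
  continuous_toFun := by fun_prop
  continuous_invFun := by
    apply continuous_pi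
    intro i
    refine Fin.lastCases ?_ (fun i => ?_) i
    · simp only [sn_last]; fun_prop
    · simp only [sn_castSucc]; fun_prop

lemma th_apply (d : ℕ) (y : Fin (d + 1) → ℝ) :
    th d y = (y (Fin.last d), fun i => y i.castSucc - y (Fin.last d)) := rfl

lemma th_mp (d : ℕ) : MeasurePreserving (th d) volume volume := by
  have h1 := volume_preserving_piFinSuccAbove (fun _ : Fin (d + 1) => ℝ) (Fin.last d)
  have h2 : MeasurePreserving (fun p : ℝ × (Fin d → ℝ) => (p.1, p.2 - fun _ => p.1))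
      (volume : Measure (ℝ × (Fin d → ℝ))) volume := by
    refine MeasurePreserving.skew_product (f := fun x : ℝ => x)
      (g := fun (v : ℝ) (u : Fin d → ℝ) => u - fun _ => v) (MeasurePreserving.id _) ?_ ?_
    · fun_prop
    · exact Eventually.of_forall fun v =>
        (measurePreserving_sub_right (volume : Measure (Fin d → ℝ)) (fun _ => v)).map_eq
  have h3 := h2.comp h1
  have h4 : (fun p : ℝ × (Fin d → ℝ) => (p.1, p.2 - fun _ => p.1)) ∘
      (MeasurableEquiv.piFinSuccAbove (fun _ : Fin (d + 1) => ℝ) (Fin.last d)) = th d := by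
    funext y
    rw [th_apply]
    simp only [Function.comp_apply, MeasurableEquiv.piFinSuccAbove_apply]
    ext i
    · simp
    · simp [Fin.init]
  rw [h4] at h3
  exact h3

/-! ### counting in a closed sheared cell -/

lemma cnt_cell {d N : ℕ} (x : Fin N → ℝ) (a b : Fin d → ℝ) (p h : ℝ) (t : ℝ) :
    (cnt x (th d ⁻¹' (Set.Icc p (p + h) ×ˢ Set.Icc a b)) t : ℝ) =
      ∑ s ∈ (Set.toFinite {s : Fin (d + 1) → Fin N | Function.Injective s ∧
        ∀ i : Fin d, x (s i.castSucc) - x (s (Fin.last d)) ∈ Set.Icc (a i) (b i)}).toFinset,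
        (Set.Icc (x (s (Fin.last d)) - (p + h)) (x (s (Fin.last d)) - p)).indicator
          (fun _ => (1 : ℝ)) t := by
  classical
  unfold cnt
  have h1 : {s : Fin (d + 1) → Fin N | Function.Injective s ∧ (fun i => x (s i) - t) ∈
      th d ⁻¹' (Set.Icc p (p + h) ×ˢ Set.Icc a b)} =
      (((Set.toFinite {s : Fin (d + 1) → Fin N | Function.Injective s ∧
        ∀ i : Fin d, x (s i.castSucc) - x (s (Fin.last d)) ∈ Set.Icc (a i) (b i)}).toFinset.filter
        (fun s => t ∈ Set.Icc (x (s (Fin.last d)) - (p + h)) (x (s (Fin.last d)) - p)) :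
        Finset (Fin (d + 1) → Fin N)) : Set (Fin (d + 1) → Fin N)) := by
    ext s
    simp only [Set.mem_ofPred_eq, Set.mem_preimage, th_apply, Set.mem_prod, Finset.coe_filter,
      Set.Finite.mem_toFinset, Set.mem_Icc, Pi.le_def, sub_sub_sub_cancel_right]
    constructor
    · rintro ⟨h1, ⟨h2, h3⟩, h4, h5⟩
      exact ⟨⟨h1, fun i => ⟨h4 i, h5 i⟩⟩, by linarith, by linarith⟩
    · rintro ⟨⟨h1, h2⟩, h3, h4⟩
      exact ⟨h1, ⟨by linarith, by linarith⟩, fun i => (h2 i).1, fun i => (h2 i).2⟩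
  rw [h1, Set.ncard_coe_finset, Finset.card_filter]
  push_cast
  apply Finset.sum_congr rfl
  intro s _
  rw [Set.indicator_apply]

lemma cell_int {d N : ℕ} (x : Fin N → ℝ) (a b : Fin d → ℝ) (p h : ℝ) :
    Integrable (fun t => (cnt x (th d ⁻¹' (Set.Icc p (p + h) ×ˢ Set.Icc a b)) t : ℝ)) := by
  simp only [cnt_cell]
  apply integrable_finsetSum
  intro s _
  rw [integrable_indicator_iff measurableSet_Icc]
  exact integrableOn_const (by simp) (by simp)

lemma cell_integral {d N : ℕ} (x : Fin N → ℝ) (a b : Fin d → ℝ) (p h : ℝ) (hh : 0 ≤ h) :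
    ∫ t, (cnt x (th d ⁻¹' (Set.Icc p (p + h) ×ˢ Set.Icc a b)) t : ℝ) = h * bn x a b := by
  simp only [cnt_cell]
  rw [integral_finsetSum]
  · have h1 : ∀ s ∈ (Set.toFinite {s : Fin (d + 1) → Fin N | Function.Injective s ∧
        ∀ i : Fin d, x (s i.castSucc) - x (s (Fin.last d)) ∈ Set.Icc (a i) (b i)}).toFinset,
        ∫ t, (Set.Icc (x (s (Fin.last d)) - (p + h)) (x (s (Fin.last d)) - p)).indicator
          (fun _ => (1 : ℝ)) t = h := by
      intro s _
      rw [integral_indicator measurableSet_Icc, setIntegral_const,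
        Real.volume_real_Icc_of_le (by linarith)]
      simp
    rw [Finset.sum_congr rfl h1, Finset.sum_const, nsmul_eq_mul, mul_comm]
    congr 2
    unfold bn
    rw [Set.ncard_eq_toFinset_card _ (Set.toFinite _)]
  · intro s _
    rw [integrable_indicator_iff measurableSet_Icc]
    exact integrableOn_const (by simp) (by simp)

/-! ### the grid -/

/-- the half open cell of the grid -/
def Q {d : ℕ} (m : ℕ) (n : ℤ × (Fin d → ℤ)) : Set (ℝ × (Fin d → ℝ)) :=
  Set.Ico ((n.1 : ℝ) / m) ((n.1 : ℝ) / m + 1 / m) ×ˢ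
    Set.univ.pi fun i => Set.Ico ((n.2 i : ℝ) / m) ((n.2 i : ℝ) / m + 1 / m)

/-- the index of a point -/
noncomputable def idx {d : ℕ} (m : ℕ) (w : ℝ × (Fin d → ℝ)) : ℤ × (Fin d → ℤ) :=
  (⌊w.1 * m⌋, fun i => ⌊w.2 i * m⌋)

lemma mem_cell1 (m : ℕ) (hm : 1 ≤ m) (n : ℤ) (v : ℝ) :
    v ∈ Set.Ico ((n : ℝ) / m) ((n : ℝ) / m + 1 / m) ↔ ⌊v * m⌋ = n := by
  have hm0 : (0 : ℝ) < m := by exact_mod_cast hm
  rw [Int.floor_eq_iff, Set.mem_Ico, ← add_div, div_le_iff₀ hm0, lt_div_iff₀ hm0]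

lemma mem_Q {d : ℕ} (m : ℕ) (hm : 1 ≤ m) (n : ℤ × (Fin d → ℤ)) (w : ℝ × (Fin d → ℝ)) :
    w ∈ Q m n ↔ idx m w = n := by
  unfold Q idx
  rw [Set.mem_prod, Set.mem_univ_pi, mem_cell1 m hm, Prod.ext_iff]
  simp only [mem_cell1 m hm]
  constructor
  · rintro ⟨h1, h2⟩
    exact ⟨h1, funext h2⟩
  · rintro ⟨h1, h2⟩
    exact ⟨h1, fun i => congrFun h2 i⟩

lemma Q_meas {d : ℕ} (m : ℕ) (n : ℤ × (Fin d → ℤ)) : MeasurableSet (Q m n) :=
  measurableSet_Ico.prod (MeasurableSet.univ_pi fun _ => measurableSet_Ico)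

lemma idx_finite {d : ℕ} (m : ℕ) (K : Set (ℝ × (Fin d → ℝ))) (hK : IsCompact K) :
    (idx m '' K).Finite := by
  obtain ⟨B, hB⟩ := hK.isBounded.exists_norm_le
  obtain ⟨L, hL⟩ := exists_nat_ge (B * m)
  have hb : ∀ v : ℝ, |v| ≤ B → -(L : ℤ) - 1 ≤ ⌊v * m⌋ ∧ ⌊v * m⌋ ≤ L := by
    intro v hv
    rw [abs_le] at hv
    have hm0 : (0 : ℝ) ≤ m := by positivity
    constructor
    · rw [Int.le_floor]
      push_cast
      nlinarith [mul_le_mul_of_nonneg_right hv.1 hm0]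
    · rw [Int.floor_le_iff]
      push_cast
      nlinarith [mul_le_mul_of_nonneg_right hv.2 hm0]
  apply ((Set.finite_Icc (-(L : ℤ) - 1) (L : ℤ)).prod
    (Set.finite_Icc (fun _ : Fin d => -(L : ℤ) - 1) (fun _ => (L : ℤ)))).subset
  rintro _ ⟨w, hw, rfl⟩
  have h1 := hB w hw
  have h2 : |w.1| ≤ B := (norm_fst_le w).trans h1
  have h3 : ∀ i, |w.2 i| ≤ B := fun i =>
    ((norm_le_pi_norm w.2 i).trans (norm_snd_le w)).trans h1
  rw [Set.mem_prod, Set.mem_Icc, Set.mem_Icc]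
  exact ⟨⟨(hb _ h2).1, (hb _ h2).2⟩, fun i => (hb _ (h3 i)).1, fun i => (hb _ (h3 i)).2⟩

lemma Q_close {d : ℕ} (m : ℕ) (n : ℤ × (Fin d → ℤ)) (δ : ℝ) (hδ : 0 < δ)
    (hm : (1 : ℝ) / m < δ) (w w0 : ℝ × (Fin d → ℝ)) (hw : w ∈ Q m n) (hw0 : w0 ∈ Q m n) :
    dist w w0 < δ := by
  have h1 : ∀ (q v v0 : ℝ), v ∈ Set.Ico q (q + 1 / m) → v0 ∈ Set.Ico q (q + 1 / m) →
      dist v v0 < δ := by
    intro q v v0 hv hv0
    rw [Real.dist_eq, abs_lt]
    constructor <;> linarith [hv.1, hv.2, hv0.1, hv0.2]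
  unfold Q at hw hw0
  rw [Set.mem_prod, Set.mem_univ_pi] at hw hw0
  rw [Prod.dist_eq, max_lt_iff, dist_pi_lt_iff hδ]
  exact ⟨h1 _ _ _ hw.1 hw0.1, fun i => h1 _ _ _ (hw.2 i) (hw0.2 i)⟩

/-- the closed sheared cell -/
def P {d : ℕ} (m : ℕ) (n : ℤ × (Fin d → ℤ)) : Set (Fin (d + 1) → ℝ) :=
  th d ⁻¹' (Set.Icc ((n.1 : ℝ) / m) ((n.1 : ℝ) / m + 1 / m) ×ˢ
    Set.Icc (fun i => (n.2 i : ℝ) / m) (fun i => (n.2 i : ℝ) / m + 1 / m))

lemma Q_sub {d : ℕ} (m : ℕ) (n : ℤ × (Fin d → ℤ)) (y : Fin (d + 1) → ℝ) (hy : th d y ∈ Q m n) :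
    y ∈ P m n := by
  unfold Q at hy
  rw [Set.mem_prod, Set.mem_univ_pi] at hy
  exact ⟨⟨hy.1.1, hy.1.2.le⟩, fun i => (hy.2 i).1, fun i => (hy.2 i).2.le⟩

lemma Q_integral {d : ℕ} (m : ℕ) (n : ℤ × (Fin d → ℤ)) :
    ∫ w in Q m n, rho (sn w.2 0) = 1 / m * bI (fun i => (n.2 i : ℝ) / m)
      (fun i => (n.2 i : ℝ) / m + 1 / m) := by
  unfold Q bI
  have h1 := setIntegral_prod_mul (μ := (volume : Measure ℝ))
    (ν := (volume : Measure (Fin d → ℝ))) (fun _ : ℝ => (1 : ℝ))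
    (fun u : Fin d → ℝ => rho (sn u 0)) (Set.Ico ((n.1 : ℝ) / m) ((n.1 : ℝ) / m + 1 / m))
    (Set.univ.pi fun i => Set.Ico ((n.2 i : ℝ) / m) ((n.2 i : ℝ) / m + 1 / m))
  simp only [one_mul] at h1
  rw [Measure.volume_eq_prod, h1]
  congr 1
  · have : (0 : ℝ) ≤ 1 / m := by positivity
    rw [setIntegral_const, Real.volume_real_Ico_of_le (by linarith)]
    simp
  · apply setIntegral_congr_set
    exact Measure.univ_pi_Ico_ae_eq_Icc

lemma sn_cont {d : ℕ} : Continuous (fun w : ℝ × (Fin d → ℝ) => sn w.2 0) := by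
  apply continuous_pi
  intro i
  refine Fin.lastCases ?_ (fun i => ?_) i
  · simp only [sn_last]; fun_prop
  · simp only [sn_castSucc]; fun_prop

lemma K_int (hRHO : S_RHO) (d : ℕ) (K : Set (Fin (d + 1) → ℝ)) :
    ∫ y in K, rho y = ∫ w in th d '' K, rho (sn w.2 0) := by
  have h1 := (th_mp d).setIntegral_preimage_emb (th d).measurableEmbedding
    (fun w => rho (sn w.2 0)) (th d '' K)
  rw [← h1, Set.preimage_image_eq _ (th d).injective]
  apply integral_congr_ae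
  refine Eventually.of_forall fun y => ?_
  have h2 := hRHO.2.2.1 (Fin (d + 1)) y (y (Fin.last d))
  show rho y = rho (sn (th d y).2 0)
  rw [← h2]
  congr 1
  funext i
  refine Fin.lastCases ?_ (fun i => ?_) i
  · simp [sn_last]
  · simp [sn_castSucc, th_apply]

lemma Av_le {d N : ℕ} (x : Fin N → ℝ) (R : ℝ) (hR : 0 < R) (K : Set (Fin (d + 1) → ℝ)) (m : ℕ)
    (J : Finset (ℤ × (Fin d → ℤ))) (hJ : ∀ y ∈ K, ∃ n ∈ J, y ∈ P m n) :
    Av x R K ≤ ∑ n ∈ J, 1 / m * ((bn x (fun i => (n.2 i : ℝ) / m)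
      (fun i => (n.2 i : ℝ) / m + 1 / m) : ℝ) / R) := by
  have h1 : ∀ t, (cnt x K t : ℝ) ≤ ∑ n ∈ J, (cnt x (P m n) t : ℝ) := by
    intro t
    have h2 : {s : Fin (d + 1) → Fin N | Function.Injective s ∧ (fun i => x (s i) - t) ∈ K} ⊆
        ⋃ n ∈ J, {s : Fin (d + 1) → Fin N | Function.Injective s ∧
          (fun i => x (s i) - t) ∈ P m n} := by
      rintro s ⟨hs, hsK⟩
      obtain ⟨n, hn, hP⟩ := hJ _ hsK
      simp only [Set.mem_iUnion]
      exact ⟨n, hn, hs, hP⟩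
    have h3 := (Set.ncard_le_ncard h2 (Set.toFinite _)).trans (Finset.set_ncard_biUnion_le J _)
    have h4 : cnt x K t ≤ ∑ n ∈ J, cnt x (P m n) t := h3
    exact_mod_cast h4
  have h2 : ∫ t, (cnt x K t : ℝ) ≤ ∫ t, ∑ n ∈ J, (cnt x (P m n) t : ℝ) := by
    refine integral_mono_of_nonneg (Eventually.of_forall fun t => Nat.cast_nonneg _) ?_
      (Eventually.of_forall h1)
    exact integrable_finsetSum _ fun n _ => cell_int x _ _ _ _
  have h5 : ∀ n ∈ J, Integrable (fun t => (cnt x (P m n) t : ℝ)) := fun n _ =>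
    cell_int x _ _ _ _
  rw [integral_finsetSum _ h5] at h2
  unfold Av
  rw [div_le_iff₀ hR]
  refine h2.trans (le_of_eq ?_)
  rw [Finset.sum_mul]
  apply Finset.sum_congr rfl
  intro n _
  rw [P, cell_integral x _ _ _ _ (by positivity)]
  field_simp

theorem t_BX (_hAV : S_AV) (hRHO : S_RHO) (hFIS : S_FIS) : S_BX := by
  intro C d c hc hBox K hK ε hε
  set g : ℝ × (Fin d → ℝ) → ℝ := fun w => rho (sn w.2 0) with hgd
  have hgc : Continuous g := (hRHO.1 (Fin (d + 1))).comp sn_cont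
  have hg0 : ∀ w, 0 ≤ g w := fun w => ((hFIS.1 (Fin (d + 1)) (sn w.2 0)).2).1
  have hg1 : ∀ w, g w ≤ 1 := fun w => ((hFIS.1 (Fin (d + 1)) (sn w.2 0)).2).2
  set K' := th d '' K with hK'd
  have hK' : IsCompact K' := hK.image (th d).continuous
  have hKint : ∫ y in K, rho y = ∫ w in K', g w := K_int hRHO d K
  set ε' := ε / (2 * (c + 1)) with hε'
  have hε'0 : 0 < ε' := by positivity
  obtain ⟨U, hKU, hUo, hUv⟩ := hK'.exists_isOpen_lt_add
    (μ := (volume : Measure (ℝ × (Fin d → ℝ)))) (ε := ENNReal.ofReal ε') (by simpa using hε'0)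
  obtain ⟨δ, hδ, hδU⟩ := hK'.exists_thickening_subset_open hUo hKU
  obtain ⟨m0, hm0⟩ := exists_nat_one_div_lt hδ
  set m := m0 + 1 with hmd
  have hm : 1 ≤ m := by omega
  have hmδ : (1 : ℝ) / m < δ := by rw [hmd]; push_cast; exact hm0
  have hm1 : (1 : ℝ) / m ≤ 1 := by
    rw [div_le_one (by positivity)]; exact_mod_cast hm
  set J := (idx_finite m K' hK').toFinset with hJd
  have hJ : ∀ n ∈ J, ∃ w0 ∈ K', idx m w0 = n := by
    intro n hn
    rw [hJd, Set.Finite.mem_toFinset] at hn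
    exact hn
  set V := ⋃ n ∈ J, Q m n with hVd
  have hVm : MeasurableSet V := Finset.measurableSet_biUnion _ fun n _ => Q_meas m n
  have hK'V : K' ⊆ V := by
    intro w hw
    simp only [hVd, Set.mem_iUnion]
    refine ⟨idx m w, ?_, (mem_Q m hm _ _).2 rfl⟩
    rw [hJd, Set.Finite.mem_toFinset]
    exact Set.mem_image_of_mem _ hw
  have hVU : V ⊆ U := by
    intro w hw
    simp only [hVd, Set.mem_iUnion] at hw
    obtain ⟨n, hn, hwn⟩ := hw
    obtain ⟨w0, hw0, hw0n⟩ := hJ n hn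
    apply hδU
    rw [Metric.mem_thickening_iff]
    exact ⟨w0, hw0, Q_close m n δ hδ hmδ w w0 hwn ((mem_Q m hm _ _).2 hw0n)⟩
  have hUfin : volume U ≠ ⊤ := by
    refine (hUv.trans_le ?_).ne
    exact le_top
  have hVfin : volume V ≠ ⊤ := ne_top_of_le_ne_top hUfin (measure_mono hVU)
  have hgV : IntegrableOn g V := by
    refine Measure.integrableOn_of_bounded (M := 1) hVfin hgc.aestronglyMeasurable ?_
    refine Eventually.of_forall fun w => ?_
    rw [Real.norm_of_nonneg (hg0 w)]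
    exact hg1 w
  have hVint : ∫ w in V, g w = ∑ n ∈ J, ∫ w in Q m n, g w := by
    rw [hVd]
    apply integral_biUnion_finset
    · exact fun n _ => Q_meas m n
    · intro n _ n' _ hnn'
      rw [Function.onFun, Set.disjoint_left]
      intro w hw hw'
      rw [mem_Q m hm] at hw hw'
      exact hnn' (hw.symm.trans hw')
    · intro n hn
      exact hgV.mono_set (Set.subset_biUnion_of_mem (u := fun n => Q m n) hn)
  have hV1 : ∫ w in V, g w ≤ (∫ w in K', g w) + ε' := by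
    have h1 : ∫ w in V, g w = (∫ w in K', g w) + ∫ w in V \ K', g w := by
      rw [← setIntegral_union Set.disjoint_sdiff_right (hVm.diff hK'.measurableSet)
        (hgV.mono_set hK'V) (hgV.mono_set Set.sdiff_subset), Set.union_sdiff_cancel hK'V]
    rw [h1]
    have h2 : ∫ w in V \ K', g w ≤ ∫ w in V \ K', (1 : ℝ) := by
      refine setIntegral_mono_on (hgV.mono_set Set.sdiff_subset) ?_
        (hVm.diff hK'.measurableSet) (fun w _ => hg1 w)
      exact integrableOn_const (ne_top_of_le_ne_top hVfin (measure_mono Set.sdiff_subset)) (by simp)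
    have h3 : volume (V \ K') ≤ ENNReal.ofReal ε' := by
      rw [measure_sdiff hK'V hK'.measurableSet.nullMeasurableSet hK'.measure_lt_top.ne]
      rw [tsub_le_iff_left]
      exact (measure_mono hVU).trans hUv.le
    have h4 : ∫ w in V \ K', (1 : ℝ) ≤ ε' := by
      rw [setIntegral_const, smul_eq_mul, mul_one]
      exact ENNReal.toReal_le_of_le_ofReal hε'0.le h3
    linarith
  set ε'' := ε / (2 * ((J.card : ℝ) + 1)) with hε''
  have hε''0 : 0 < ε'' := by positivity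
  have hev : ∀ᶠ T in atTop, ∀ n ∈ J, (bn (C.x T) (fun i => (n.2 i : ℝ) / m)
      (fun i => (n.2 i : ℝ) / m + 1 / m) : ℝ) / C.R T ≤
      c * bI (fun i => (n.2 i : ℝ) / m) (fun i => (n.2 i : ℝ) / m + 1 / m) + ε'' := by
    rw [Filter.eventually_all_finset]
    intro n _
    exact hBox _ _ ε'' hε''0
  filter_upwards [hev, C.hR.eventually_gt_atTop 0] with T hT hTR
  have hA := Av_le (C.x T) (C.R T) hTR K m J (by
    intro y hy
    have h1 := hK'V (Set.mem_image_of_mem (th d) hy)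
    simp only [hVd, Set.mem_iUnion] at h1
    obtain ⟨n, hn, hyn⟩ := h1
    exact ⟨n, hn, Q_sub m n y hyn⟩)
  have hB : ∑ n ∈ J, 1 / (m : ℝ) * ((bn (C.x T) (fun i => (n.2 i : ℝ) / m)
      (fun i => (n.2 i : ℝ) / m + 1 / m) : ℝ) / C.R T) ≤
      ∑ n ∈ J, (c * (∫ w in Q m n, g w) + ε'') := by
    apply Finset.sum_le_sum
    intro n hn
    have h1 : ∫ w in Q m n, g w = 1 / m * bI (fun i => (n.2 i : ℝ) / m)
      (fun i => (n.2 i : ℝ) / m + 1 / m) := Q_integral m n
    rw [h1]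
    have h2 := mul_le_mul_of_nonneg_left (hT n hn) (show (0 : ℝ) ≤ 1 / m by positivity)
    have h3 : 1 / (m : ℝ) * ε'' ≤ ε'' := by nlinarith
    linarith
  have hB' := hA.trans hB
  rw [Finset.sum_add_distrib, ← Finset.mul_sum, ← hVint, Finset.sum_const, nsmul_eq_mul] at hB'
  have hC : (J.card : ℝ) * ε'' ≤ ε / 2 := by
    rw [hε'', ← mul_div_assoc, div_le_iff₀ (by positivity)]
    nlinarith
  have hD : c * ε' ≤ ε / 2 := by
    rw [hε', ← mul_div_assoc, div_le_iff₀ (by positivity)]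
    nlinarith
  have hE := mul_le_mul_of_nonneg_left hV1 hc
  rw [hKint]
  linarith

end Pool.Agent.H354.GU.BX
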